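import Pool.Agent.Y867.WR.OneG

/-!
# Waring's problem in one parameter families: `4 k - 3` values represent every large integer

The circle method for the sequence `⌊a n ^ k + θ n ^ (k - 1) + b (k - 2) n ^ (k - 2) + ... + b 0⌋`, with all the
coefficients fixed except `θ`. Two blocks of variables lie in pairs at the scales `X, X ^ μ, X ^ (μ ^ 2), ...` with
`μ = (k - 2) / (k - 1)` (diminishing ranges for the two sums of `k`-th and of `(k - 1)`-st powers). For almost all `θ`
the number of near collisions of such a block is optimal up to logarithms (an average over `θ`, with a counting lemma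
for two equations), and the exponential sum over the last variable is small on the minor arcs (Weyl's inequality for
large denominators, a net of points and the second moment over `θ` for the small ones). From the starting files and from
colleagues: Weyl differencing (`Pool.Agent.TH181.MW`, `Pool.Agent.TH181.MX`), Vinogradov's lemma
(`Pool.Agent.H807R2.Dav`), the bound for the number of divisors (`Pool.Agent.Helper112.Arith`).
From Mathlib: `∀ᵐ θ : ℝ` is: for all real `θ` outside a set of Lebesgue measure zero; `⌊x⌋` is the integer part of `x`;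
`⌈x⌉₊` is the least natural number not less than `x`.
-/

set_option autoImplicit false

namespace Pool.Agent.Results.MP_ee77ae_nt.OneParameter

/-- Let `k ≥ 3`, let `a > 0` and let `b 0, ..., b (k - 2)` be arbitrary real numbers. For almost all real `θ` the
polynomial `f(x) = a x ^ k + θ x ^ (k - 1) + ∑ j, b j x ^ j` has the following property: for every `s ≥ 4 k - 3`, and
also for every `s ≥ 4 ⌈(k - 3 / 2) log 2⌉ + 5` (which is smaller for large `k`), every large integer `N` is a sum of
exactly `s` positive integers of the form `⌊f(n)⌋`, `n ≥ 1`. More precisely this holds for all `s ≥ 4 t + 5` if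
`2 (k - 2) ^ t ≤ (k - 1) ^ t`. -/
theorem result (k : ℕ) (hk : 3 ≤ k) (a : ℝ) (ha : 0 < a) (b : Fin (k - 1) → ℝ) :
    ∀ᵐ θ : ℝ, ∀ s : ℕ, ((∃ t : ℕ, 2 * (k - 2) ^ t ≤ (k - 1) ^ t ∧ 4 * t + 5 ≤ s) ∨ 4 * k - 3 ≤ s ∨
      4 * ⌈((k : ℝ) - 3 / 2) * Real.log 2⌉₊ + 5 ≤ s) →
      ∃ N₀ : ℕ, ∀ N : ℕ, N₀ ≤ N → ∃ x : Fin s → ℕ,
        (∀ i, 1 ≤ x i ∧ 0 < ⌊a * (x i : ℝ) ^ k + θ * (x i : ℝ) ^ (k - 1) + ∑ j : Fin (k - 1), b j * (x i : ℝ) ^ (j : ℕ)⌋) ∧
          ∑ i, ⌊a * (x i : ℝ) ^ k + θ * (x i : ℝ) ^ (k - 1) + ∑ j : Fin (k - 1), b j * (x i : ℝ) ^ (j : ℕ)⌋ = (N : ℤ) :=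
  Pool.Agent.Y867.WR.finalO k hk a ha b

end Pool.Agent.Results.MP_ee77ae_nt.OneParameter
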